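import Pool.Agent.Run7.h309.AT.Win
import Pool.Agent.Y921.DB.Fin
import Pool.Agent.Y123.ST.Out

/-!
# The torsor form of the period conjecture for all tuples of fibres of all families over the line

Let `Z` be a fundamental matrix, regular at `z = 0`, of a system `f Z' = Z A` over `L(z)`, where `L` is a number field with
an embedding in `ℂ`, such that the entries of `Z` and of `W = Z⁻¹` are G-functions: for example the matrix of the
Gauss-Manin connection of `h^j` of ANY smooth projective family over an open part of the line over `L` with a good fibre at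
`z = 0`. Let `P(z)` be a square matrix whose entries are any complex linear combinations of `1` and of the entries of `Z(z)`:
for instance the period matrix `C Z(z)` of the fibre at `z` (rows: Betti, columns: de Rham; `C` is the period matrix of the
fibre at `0`), of rank `n`. We consider as well the matrices whose entries are combinations of `1` and of the periods of a
finite number of families of cyclic covers `y ^ N = (x - z) ^ e₀ ∏_j (x - a_j) ^ (e_j)` over transported closed paths; then
there is no further hypothesis. Let `Gal P` be the group of the matrices `g` such that `P(z)` and `g P(z)` satisfy the same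
polynomial relations over `ℂ(z)`: if `P` is the period matrix this is the differential Galois group of the Gauss-Manin
system, the Zariski closure of the monodromy group. Let `M_0` be any object over a number field with period matrix `C₀`, for
example the motive of a fixed smooth projective variety, and let `c = C₀ ⊕ ⨁_j P(1 / m_j)` be the period matrix of the sum
of `M_0` and of the motives `M_j` of the fibres at `1 / m_j`, `j ≤ k`.

For a number field `K ⊂ ℂ` a `K`-subtorsor is a subset `T` of `GL` which is defined by polynomials over `K`, of any degree,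
and closed under `x y⁻¹ z`. The torsor of motivic isomorphisms of `H_dR` and `H_B` is one and contains `c`, and
Grothendieck's conjecture implies that it is contained in all others with `c ∈ T`, up to connected components, for all `K`.

**Theorem.** There are `r > 0` and `G` such that for all `k`, `D` and all sizes of `C₀` there are `c > 0` and `M` such that
for all `C₀` and all windows `[N, N + N ^ c]` there is a set `S` of at most `M` integers with the following property. For
**all** `k`-tuples of integers `m_j` of the window outside `S` with distances at least `G`, for **all** number fields `K` of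
degree at most `D` and all `K`-subtorsors `T` which contain `c`:

1. `T` is stable under `1 × ∏_j known`, where `known` is the commutator group of the group generated by all unipotent
   one-parameter groups in `Gal P`. This is the connected component of `Gal P` if this component is semisimple, as is
   the case for families of smooth projective varieties by a theorem of Deligne.
2. Let `Gal P` contain the group `special(B_j)` of the matrices of determinant `1` which respect a form `B_j`, where `B_j` is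
   alternating and nondegenerate, or symmetric and nondegenerate of rank `≠ 2`, or zero: the monodromy group is Zariski
   dense in `Sp`, `SO`, `O`, `SL` or bigger. Then `T` is, in the torsor of all isomorphisms `x_0 ⊕ ⨁ X_j` which respect
   polarisations (`X_j Q_j X_j^t = μ_j B_j`), the full inverse image of its image under `(x_0, det X_1, …, det X_k)`. (In the
   symplectic case the determinant is superfluous.)
3. (The absolute case.) Let moreover `M_0` be a sum of objects `ℚ(-1)`, `C₀ = 2πi`. If `T` is contained in the torsor of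
   the isomorphisms `z ⊕ ⨁ X_j` with `X_j Q_j X_j^t = z^(w_j) B_j` and `det X_j = δ_j z^(l_j)` then it is equal to this torsor.

No tuples are excluded besides those with a member in `S` or with two members at a distance less than `G`: for `k = 1` all
fibres `1 / m` of the window but at most `M` have the property, and these fibres are independent. The subtorsors are of any
degree. Only the case of the subtorsors is treated, so the theorem says that the Zariski closure of the period point is not
contained in any smaller subtorsor: if it is (a union of components of) a torsor it has the dimension which Grothendieck's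
conjecture predicts, relative to `M_0`. Otherwise its dimension is not determined.

Proof. By helper659's theorem on degree-bounded relations (`Pool/Agent/Run7/h659/TT3.lean`, MP_290158_ag.AllTuplesOfFibres)
all relations of bounded degree of the `P(1 / m_j)` with coefficients in a `ℚ`-space of bounded dimension are values of
functional relations with coefficients in `ℂ[z_1, …, z_k]`. Specialising all points but one we see that a functional relation
remains true if the `P(z_j)` are multiplied by elements `g_j` of `Gal P`. So all relations of bounded degree over `ℚ` of `c`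
hold for `(1 ⊕ ⨁ g_j) c`, and by helper123's theorem on commutators (`Pool/Agent/Y123/GN/E2.lean`, starting tree) all
`K`-subtorsors with `c ∈ T` are stable under the commutator group of the group generated by the unipotent one-parameter
groups.
-/

set_option autoImplicit false

open PowerSeries Filter
open scoped Matrix

namespace Pool.Agent.Results.MP_57341d_ag.AllFamiliesTorsors

/-- The arithmetic conditions in the definition of a G-function over a number field: geometric growth of the conjugates of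
the coefficients and of their common denominators. -/
def GCond {L : Type} [Field L] (g : L⟦X⟧) : Prop := ∃ C : ℝ, (∀ (φ : L →+* ℂ) (m : ℕ), ‖φ (coeff m g)‖ ≤ C ^ (m + 1)) ∧
  ∀ m, ∃ d : ℕ, 0 < d ∧ (d : ℝ) ≤ C ^ (m + 1) ∧ ∀ j ≤ m, IsIntegral ℤ ((d : L) * coeff j g)

/-- `Z` is a fundamental matrix of G-functions of the system `f Z' = Z A`, regular at `0`, and `W` is its inverse. -/
structure IsGSystem {L : Type} [Field L] {n : ℕ} (f : Polynomial L) (A : Matrix (Fin n) (Fin n) (Polynomial L))
    (Z W : Matrix (Fin n) (Fin n) L⟦X⟧) : Prop where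
  regular : f.coeff 0 ≠ 0
  ode : ∀ i j, (f : L⟦X⟧) * PowerSeries.derivative L (Z i j) = ∑ k, Z i k * (A k j : L⟦X⟧)
  inverse : W * Z = 1
  gZ : ∀ i j, GCond (Z i j)
  gW : ∀ i j, GCond (W i j)

/-- The values at `z` of the entries of the matrix `Z` of power series. -/
noncomputable def entries {L : Type} [Field L] [Algebra L ℂ] {n : ℕ} (Z : Matrix (Fin n) (Fin n) L⟦X⟧) (z : ℂ)
    (q : Fin n × Fin n) : ℂ :=
  ∑' m : ℕ, algebraMap L ℂ (coeff m (Z q.1 q.2)) * z ^ m

/-- `(x, y)` is a closed path (parametrised by `[0, 1]`, with continuously differentiable coordinates) on the affine curve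
`y ^ N = x ^ e₀ ∏ (x - a j) ^ (e j)`, the fibre `C_0`, outside the disc `|x| ≤ ρ` and away from the points `x = a j`. -/
structure IsClosedPath {n : ℕ} (N e₀ : ℕ) (a : Fin n → ℂ) (e : Fin n → ℕ) (ρ : ℝ) (x y : ℝ → ℂ) : Prop where
  smooth_x : ContDiff ℝ 1 x
  smooth_y : ContDiff ℝ 1 y
  closed_x : x 0 = x 1
  closed_y : y 0 = y 1
  curve : ∀ t ∈ Set.Icc (0 : ℝ) 1, y t ^ N = x t ^ e₀ * ∏ j, (x t - a j) ^ e j
  away : ∀ t ∈ Set.Icc (0 : ℝ) 1, (∀ j, x t ≠ a j) ∧ ρ < ‖x t‖

/-- The period `∮ x ^ i dx / y ^ k` on `C_z` over the path `(x, y (1 - z / x) ^ (e₀ / N))`, the parallel transport of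
`(x, y)`, for `|z| < ρ`. -/
noncomputable def period (N e₀ : ℕ) (x y : ℝ → ℂ) (z : ℂ) (k i : ℕ) : ℂ :=
  ∫ t in (0 : ℝ)..1, x t ^ i / (y t * (1 - z / x t) ^ ((e₀ : ℂ) / N)) ^ k * deriv x t

/-- A family of cyclic covers `C_z : y ^ N = (x - z) ^ e₀ ∏ (x - a j) ^ (e j)`, with `σ` closed paths and the bound `κ` for
the exponents `k` of the forms `x ^ i dx / y ^ k`. -/
structure Family where
  /-- the number of fixed branch points -/
  n : ℕ
  /-- the degree of the covers -/
  N : ℕ
  /-- the exponent of the moving branch point -/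
  e₀ : ℕ
  /-- the fixed branch points -/
  a : Fin n → ℂ
  /-- their exponents -/
  e : Fin n → ℕ
  /-- the forms are `x ^ i dx / y ^ k` with `i < n` and `1 ≤ k ≤ κ` -/
  κ : ℕ
  /-- the number of paths -/
  σ : ℕ
  /-- the radius of the excluded disc -/
  ρ : ℝ
  x : Fin σ → ℝ → ℂ
  y : Fin σ → ℝ → ℂ
  N_pos : 0 < N
  e₀_pos : 0 < e₀
  injective : Function.Injective a
  algebraic : ∀ j, IsAlgebraic ℚ (a j)
  ne_zero : ∀ j, a j ≠ 0
  ρ_pos : 0 < ρ
  path : ∀ s, IsClosedPath N e₀ a e ρ (x s) (y s)

/-- All the periods of the curves `C_z` of `q` families, at the same point `z`. -/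
noncomputable def periods {q : ℕ} (F : Fin q → Family) (z : ℂ)
    (v : Σ l, Fin (F l).σ × Fin (F l).κ × Fin (F l).n) : ℂ :=
  period (F v.1).N (F v.1).e₀ ((F v.1).x v.2.1) ((F v.1).y v.2.1) z (v.2.2.1 + 1) v.2.2.2

/-- The matrix `P(z)` with the entries `c a b none + ∑ v, c a b (some v) p_v(z)`. -/
noncomputable def combine {ι : Type} [Fintype ι] (p : ℂ → ι → ℂ) {n : ℕ} (c : Fin n → Fin n → Option ι → ℂ) (z : ℂ) :
    Matrix (Fin n) (Fin n) ℂ :=
  Matrix.of fun a b => c a b none + ∑ v, c a b (some v) * p z v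

section groups
variable {n : ℕ}

/-- the value at `z` and at the matrix `Y` of a polynomial in the entries of a matrix over `ℂ[z]` -/
noncomputable def relAt (R : MvPolynomial (Fin n × Fin n) (Polynomial ℂ)) (z : ℂ) (Y : Matrix (Fin n) (Fin n) ℂ) : ℂ :=
  MvPolynomial.eval₂ (Polynomial.evalRingHom z) (fun v => Y v.1 v.2) R

/-- `g P(z)` satisfies all polynomial relations over `ℂ[z]` which `P(z)` satisfies, for `z` near `0`. -/
def Preserves (P : ℂ → Matrix (Fin n) (Fin n) ℂ) (g : Matrix (Fin n) (Fin n) ℂ) : Prop :=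
  ∀ R : MvPolynomial (Fin n × Fin n) (Polynomial ℂ), (∀ᶠ z in nhds 0, relAt R z (P z) = 0) →
    ∀ᶠ z in nhds 0, relAt R z (g * P z) = 0

/-- The group of the matrices `g` such that `g` and `g⁻¹` preserve the relations. If `P` is a fundamental matrix of a linear
differential system over `ℂ(z)` this is its differential Galois group. -/
noncomputable def Gal (P : ℂ → Matrix (Fin n) (Fin n) ℂ) : Subgroup (Matrix.GeneralLinearGroup (Fin n) ℂ) where
  carrier := {g | Preserves P (g : Matrix (Fin n) (Fin n) ℂ) ∧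
    Preserves P ((g⁻¹ : Matrix.GeneralLinearGroup (Fin n) ℂ) : Matrix (Fin n) (Fin n) ℂ)}
  mul_mem' := fun hg hg' => (Run7.h309.AT.Gz P).mul_mem' hg hg'
  one_mem' := (Run7.h309.AT.Gz P).one_mem'
  inv_mem' := fun hg => (Run7.h309.AT.Gz P).inv_mem' hg

theorem gal_eq (P : ℂ → Matrix (Fin n) (Fin n) ℂ) : Gal P = Run7.h309.AT.Gz P := rfl

/-- the nilpotent matrices `N` with `exp (t N) ∈ H` for all `t` -/
def nilpotents (H : Subgroup (Matrix.GeneralLinearGroup (Fin n) ℂ)) : Set (Matrix (Fin n) (Fin n) ℂ) :=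
  {N | IsNilpotent N ∧ ∀ t : ℂ, ∃ u ∈ H, (u : Matrix (Fin n) (Fin n) ℂ) = IsNilpotent.exp (t • N)}

/-- the subgroup generated by all unipotent one-parameter groups in `H` -/
def unipotents (H : Subgroup (Matrix.GeneralLinearGroup (Fin n) ℂ)) : Subgroup (Matrix.GeneralLinearGroup (Fin n) ℂ) :=
  Subgroup.closure {u | ∃ N ∈ nilpotents H, ∃ t : ℂ, (u : Matrix (Fin n) (Fin n) ℂ) = IsNilpotent.exp (t • N)}

/-- the commutator group of the group generated by the unipotent one-parameter groups -/
def known (H : Subgroup (Matrix.GeneralLinearGroup (Fin n) ℂ)) : Subgroup (Matrix.GeneralLinearGroup (Fin n) ℂ) :=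
  ⁅unipotents H, unipotents H⁆

/-- the matrices of determinant `1` which respect the form `B`; the special linear group for `B = 0` -/
def special (B : Matrix (Fin n) (Fin n) ℂ) : Subgroup (Matrix.GeneralLinearGroup (Fin n) ℂ) where
  carrier := {g | (g : Matrix (Fin n) (Fin n) ℂ).det = 1 ∧
    (g : Matrix (Fin n) (Fin n) ℂ) * B * (g : Matrix (Fin n) (Fin n) ℂ)ᵀ = B}
  mul_mem' := fun hg hg' => (Pool.Agent.Y123.GN.GB B).mul_mem' hg hg'
  one_mem' := (Pool.Agent.Y123.GN.GB B).one_mem'
  inv_mem' := fun hg => (Pool.Agent.Y123.GN.GB B).inv_mem' hg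

/-- nondegenerate alternating forms -/
def Symplectic (B : Matrix (Fin n) (Fin n) ℂ) : Prop := IsUnit B ∧ Bᵀ = -B

/-- The form is zero, or nondegenerate and alternating, or nondegenerate and symmetric of rank different from `2`. -/
def Classical (B : Matrix (Fin n) (Fin n) ℂ) : Prop := B = 0 ∨ Symplectic B ∨ (IsUnit B ∧ Bᵀ = B ∧ n ≠ 2)

end groups

/-- `T` is (the set of complex points of) a `K`-subtorsor of `GL_B = Iso (M_dR, M_B)`: it is closed under `x y⁻¹ z`, and
it is defined in `GL_B` by polynomials with coefficients in `K`. -/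
def IsSubtorsor (K : Subfield ℂ) {B : Type} [Fintype B] [DecidableEq B] (T : Set (Matrix B B ℂ)) : Prop :=
  (∀ x ∈ T, ∀ y ∈ T, ∀ z ∈ T, x * y⁻¹ * z ∈ T) ∧ ∃ I : Set (MvPolynomial (B × B) K), ∀ x : Matrix B B ℂ, x ∈ T ↔
    IsUnit x ∧ ∀ p ∈ I, MvPolynomial.eval (fun b => x b.1 b.2) (MvPolynomial.map (algebraMap K ℂ) p) = 0

section torsors
variable {k r n : ℕ}

/-- the block matrix `x ⊕ X_1 ⊕ … ⊕ X_k` -/
noncomputable def total (x : Matrix (Fin r) (Fin r) ℂ) (X : Fin k → Matrix (Fin n) (Fin n) ℂ) :
    Matrix (Fin r ⊕ Σ _ : Fin k, Fin n) (Fin r ⊕ Σ _ : Fin k, Fin n) ℂ :=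
  Matrix.fromBlocks x 0 0 (Matrix.blockDiagonal' X)

/-- the isomorphisms `X_j` respect the polarisations `Q_j` (de Rham) and `B_j` (Betti) up to the factors `μ_j` -/
def Respects (B Q : Fin k → Matrix (Fin n) (Fin n) ℂ) (μ : Fin k → ℂ) (X : Fin k → Matrix (Fin n) (Fin n) ℂ) : Prop :=
  (∀ j, μ j ≠ 0) ∧ ∀ j, X j * Q j * (X j)ᵀ = μ j • B j

/-- The isomorphisms `z ⊕ … ⊕ z ⊕ X_1 ⊕ … ⊕ X_k` of an `r`-fold sum of the object `ℚ(-1)` and of the `M_j` which respect the
polarisations, with values in `ℚ(-w_j)`, and the identifications of `det M_j` with `ℚ(-l_j)` up to a twist. -/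
def torsorOf (r : ℕ) (B Q : Fin k → Matrix (Fin n) (Fin n) ℂ) (w l : Fin k → ℤ) (δ : Fin k → ℂ) :
    Set (Matrix (Fin r ⊕ Σ _ : Fin k, Fin n) (Fin r ⊕ Σ _ : Fin k, Fin n) ℂ) :=
  {y | ∃ z : ℂ, z ≠ 0 ∧ ∃ X : Fin k → Matrix (Fin n) (Fin n) ℂ, y = total (z • 1) X ∧
    ∀ j, X j * Q j * (X j)ᵀ = z ^ (w j) • B j ∧ (Symplectic (B j) ∨ (X j).det = δ j * z ^ (l j))}

/-- The conclusion for one tuple. -/
def Good (D : ℕ) (C₀ : Matrix (Fin r) (Fin r) ℂ) (P : ℂ → Matrix (Fin n) (Fin n) ℂ) (m : Fin k → ℕ) : Prop :=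
  ∀ K : Subfield ℂ, FiniteDimensional ℚ K → Module.finrank ℚ K ≤ D →
  ∀ T : Set (Matrix (Fin r ⊕ Σ _ : Fin k, Fin n) (Fin r ⊕ Σ _ : Fin k, Fin n) ℂ), IsSubtorsor K T →
    total C₀ (fun j => P (1 / (m j : ℂ))) ∈ T →
  -- 1: stability
  (∀ g : Fin k → Matrix.GeneralLinearGroup (Fin n) ℂ, (∀ j, g j ∈ known (Gal P)) →
    ∀ x ∈ T, total 1 (fun j => (g j : Matrix (Fin n) (Fin n) ℂ)) * x ∈ T) ∧
  -- 2: big monodromy, relative case
  (∀ B : Fin k → Matrix (Fin n) (Fin n) ℂ, (∀ j, Classical (B j)) → (∀ j, special (B j) ≤ Gal P) →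
    ∀ (Q : Fin k → Matrix (Fin n) (Fin n) ℂ) (μ : Fin k → ℂ) (x₀ : Matrix (Fin r) (Fin r) ℂ)
      (X Y : Fin k → Matrix (Fin n) (Fin n) ℂ), Respects B Q μ X → Respects B Q μ Y →
      (∀ j, Symplectic (B j) ∨ (X j).det = (Y j).det) → total x₀ X ∈ T → total x₀ Y ∈ T) ∧
  -- 3: big monodromy, absolute case
  (0 < r → C₀ = (2 * Real.pi * Complex.I : ℂ) • 1 →
    ∀ B : Fin k → Matrix (Fin n) (Fin n) ℂ, (∀ j, Classical (B j)) → (∀ j, special (B j) ≤ Gal P) →
    ∀ (Q : Fin k → Matrix (Fin n) (Fin n) ℂ) (w l : Fin k → ℤ) (δ : Fin k → ℂ),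
      T ⊆ torsorOf r B Q w l δ → T = torsorOf r B Q w l δ)

end torsors

/-- The matrix `P` is analytic for `|z| < r`, and in short windows outside a bounded number of integers all tuples of separated
points `1 / m_j` are good. -/
def Torsors {n : ℕ} (P : ℂ → Matrix (Fin n) (Fin n) ℂ) : Prop :=
  ∃ r : ℝ, 0 < r ∧ (∀ a b, AnalyticOnNhd ℂ (fun z => P z a b) (Metric.ball 0 r)) ∧ ∃ G : ℕ, ∀ k s D : ℕ,
    ∃ M : ℕ, ∃ c : ℝ, 0 < c ∧ ∀ C₀ : Matrix (Fin s) (Fin s) ℂ, ∀ N : ℕ, 1 ≤ N →
      ∃ S : Finset ℕ, S.card ≤ M ∧ ∀ m : Fin k → ℕ, (∀ i j, i ≠ j → (G : ℤ) ≤ |(m i : ℤ) - m j|) →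
        (∀ j, N ≤ m j ∧ (m j : ℝ) ≤ N + (N : ℝ) ^ c ∧ m j ∉ S) →
          (∀ j, 1 / (m j : ℝ) < r) ∧ Good D C₀ P m

theorem good_of {k r n D : ℕ} {C₀ : Matrix (Fin r) (Fin r) ℂ} {P : ℂ → Matrix (Fin n) (Fin n) ℂ} {m : Fin k → ℕ}
    (hg : Run7.h309.AT.Conc D C₀ P m) : Good D C₀ P m := by
  intro K hKf hKD T hT hcT
  have hT' : Pool.Agent.TH127.PT.IsSubtorsor K T := Pool.Agent.Y123.ST.subT_iff.1 hT
  have h1 := hg K hKf hKD T hT' hcT
  have hKalg : ∀ x ∈ K, IsAlgebraic ℚ x := by
    intro x hx
    have : NumberField K := { to_charZero := inferInstance, to_finiteDimensional := hKf }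
    have h6 : IsAlgebraic ℚ (⟨x, hx⟩ : K) := Algebra.IsAlgebraic.isAlgebraic _
    exact h6.algebraMap (A := ℂ)
  have h2 : ∀ B : Fin k → Matrix (Fin n) (Fin n) ℂ, (∀ j, Classical (B j)) → (∀ j, special (B j) ≤ Gal P) →
      ∀ g : Fin k → (Matrix (Fin n) (Fin n) ℂ)ˣ, (∀ j, g j ∈ Pool.Agent.Y123.GN.GB (B j)) →
      ∀ x ∈ T, Pool.Agent.Y123.GN.EG 1 (fun j => (g j : Matrix (Fin n) (Fin n) ℂ)) * x ∈ T := by
    intro B hB hBG g hgB x hx
    exact h1 g (fun j => Pool.Agent.Y123.GN.mono_comm (hBG j) (Pool.Agent.Y123.GN.cl_perf (hB j)) (hgB j)) x hx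
  refine ⟨h1, ?_, ?_⟩
  · intro B hB hBG Q μ x₀ X Y hX hY hd hx
    exact Pool.Agent.Y123.GN.fibre_full hT' (h2 B hB hBG) hX.1 hx hX.2 hY.2 hd
  · intro hr hC₀ B hB hBG Q w l δ hTF
    have hne : Nonempty (Fin r) := ⟨⟨0, hr⟩⟩
    rw [hC₀] at hcT
    exact Pool.Agent.Y123.GN.absolute hKalg hT' hcT (h2 B hB hBG) hTF

theorem torsors_of {L : Type} [Field L] [NumberField L] [Algebra L ℂ] {n : ℕ} {f : Polynomial L}
    {A : Fin n → Fin n → Polynomial L} {Z W : Fin n → Fin n → L⟦X⟧} (h : Pool.Agent.Y921.DB.DatL f A Z W) {n' : ℕ}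
    (c : Fin n' × Fin n' → Option (Fin n × Fin n) → ℂ) {P : ℂ → Matrix (Fin n') (Fin n') ℂ} {r₀ : ℝ} (hr₀ : 0 < r₀)
    (hP : ∀ z : ℂ, ‖z‖ < r₀ → ∀ v : Fin n' × Fin n', P z v.1 v.2 =
      ∑ q, c v q * q.elim 1 fun q => Pool.Agent.Y921.DB.VL (Z q.1 q.2) z) : Torsors P := by
  obtain ⟨r, G, hr, han, hmain⟩ := Run7.h309.AT.tup h c hr₀ hP
  refine ⟨r, hr, han, G, fun k s D => ?_⟩
  obtain ⟨M, c, hc, h1⟩ := hmain k s D
  refine ⟨M, c, hc, fun C₀ N hN => ?_⟩
  obtain ⟨S, hS, h2⟩ := h1 C₀ N hN
  exact ⟨S, hS, fun m hm1 hm2 => ⟨(h2 m hm1 hm2).1, good_of (h2 m hm1 hm2).2⟩⟩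

/-- **Theorem.** The statement on the subtorsors which contain the matrices of tuples of fibres holds for all matrices of
complex linear combinations of `1` and of the entries of a fundamental matrix of G-functions of a regular system over a
number field, and for all matrices of complex linear combinations of `1` and of the periods of any finite number of families of
cyclic covers of the line. -/
theorem result :
    (∀ (L : Type) [Field L] [NumberField L] [Algebra L ℂ] (n : ℕ) (f : Polynomial L)
      (A : Matrix (Fin n) (Fin n) (Polynomial L)) (Z W : Matrix (Fin n) (Fin n) L⟦X⟧), IsGSystem f A Z W →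
      ∀ (n' : ℕ) (c : Fin n' → Fin n' → Option (Fin n × Fin n) → ℂ), Torsors (combine (entries Z) c)) ∧
    ∀ (q : ℕ) (F : Fin q → Family) (n' : ℕ)
      (c : Fin n' → Fin n' → Option (Σ l, Fin (F l).σ × Fin (F l).κ × Fin (F l).n) → ℂ),
      Torsors (combine (periods F) c) := by
  refine ⟨?_, ?_⟩
  · intro L _ _ _ n f A Z W h n' c
    have hD : Pool.Agent.Y921.DB.DatL f (fun i j => A i j) (fun i j => Z i j) (fun i j => W i j) := by
      refine ⟨h.regular, h.ode, fun i j => ?_, h.gZ, h.gW⟩
      have h1 : (W * Z) i j = (1 : Matrix (Fin n) (Fin n) L⟦X⟧) i j := by rw [h.inverse]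
      rw [Matrix.mul_apply] at h1
      rw [h1, Matrix.one_apply]
    refine torsors_of hD (fun v => c v.1 v.2) one_pos fun z _ v => ?_
    rw [Fintype.sum_option]
    simp only [Option.elim_none, Option.elim_some, mul_one]
    rfl
  · intro q F n' c
    let F' : Pool.Agent.Y921.DB.Fam q :=
      { n := fun l => (F l).n, N := fun l => (F l).N, e₀ := fun l => (F l).e₀, κ := fun l => (F l).κ,
        σ := fun l => (F l).σ, a := fun l => (F l).a, e := fun l => (F l).e, ρ := fun l => (F l).ρ,
        x := fun l => (F l).x, y := fun l => (F l).y, hN := fun l => (F l).N_pos, he := fun l => (F l).e₀_pos,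
        ha := fun l => (F l).injective, halg := fun l => (F l).algebraic, ha0 := fun l => (F l).ne_zero,
        hρ := fun l => (F l).ρ_pos,
        path := fun l s => ⟨((F l).path s).smooth_x, ((F l).path s).smooth_y, ((F l).path s).closed_x,
          ((F l).path s).closed_y, ((F l).path s).curve, ((F l).path s).away⟩ }
    obtain ⟨L, _, _, _, M, f, A, Z, W, lam, r₀, hD, hr₀, hrρ, hl0, hrep⟩ := F'.rep
    have hP : ∀ z : ℂ, ‖z‖ < r₀ → ∀ v, periods F z v =
        ∑ q, lam v.1 v q * q.elim 1 fun q => Pool.Agent.Y921.DB.VL (Z q.1 q.2) z := fun z hz v =>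
      hrep (fun _ => z) (fun _ => hz) v
    refine torsors_of hD (fun u o => (if o = none then c u.1 u.2 none else 0) +
      ∑ v, c u.1 u.2 (some v) * lam v.1 v o) hr₀ fun z hz u => ?_
    have h1 : combine (periods F) c z u.1 u.2 = c u.1 u.2 none + ∑ v, c u.1 u.2 (some v) * periods F z v := rfl
    rw [h1]
    simp only [add_mul, Finset.sum_add_distrib, Finset.sum_mul]
    congr 1
    · rw [Fintype.sum_option]
      simp
    · rw [Finset.sum_comm]
      refine Finset.sum_congr rfl fun v _ => ?_
      rw [hP z hz v, Finset.mul_sum]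
      exact Finset.sum_congr rfl fun o _ => (mul_assoc _ _ _).symm

end Pool.Agent.Results.MP_57341d_ag.AllFamiliesTorsors
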