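import Pool.Agent.Run7.h10.OR.HypI
import Pool.Agent.Run7.h10.OR.Tor

/-!
Grothendieck's period conjecture in bounded degree and height for almost all fibres of all families of pure motives whose
Mumford-Tate group is generated by the homotheties and the connected monodromy group, which may be any connected group;
the monodromy group itself need not be connected. In particular: all families with orthogonal and symplectic monodromy
(universal families of hypersurfaces and complete intersections of even and odd dimension, K3 surfaces), and tuples of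
hypergeometric motives of Calabi-Yau type of arbitrary rank.
-/

namespace Pool.Agent.Results.MP_57341d_ag.HomothetiesAndMonodromy

open Filter Pool.Agent Pool.Agent.Run7.h10.OR
open Pool.Agent.Y890.SP (Qbar)
open Pool.Agent.Y890.SM (tpi)

/-- (1) Let `F` be a family (`Fam`) of motives `M = ⨁ M i`, `M i` pure of weight `w i`, over an open connected subset
`U` of `ℂ ^ X`: `P x` is the tuple of the period matrices (rows: Betti, columns: de Rham), `Γ` the monodromy, which
preserves the relations over `ℂ[x]` of `P`, `G` an irreducible set of tuples of matrices in the Zariski closure of `Γ`,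
`1 ∈ G`, such that the polynomials over `ℚ̄` which are invariant under `G` and homogeneous of weight `2 k` take values in
`ℚ̄ (2 π i) ^ k` at the periods of the fibres over algebraic points, for a set `I` of such invariants which separates the
orbits `G Y`. There is `ω → ∞` such that for all large `T`, all number fields `K` of degree at most `ω T`, embedded in `ℂ`,
and all complex numbers `ξ a`, `a < ω T`: the points of `U` with coordinates in `K` of height at most `T`, of norm at most
`ω T` and at distance at least `1 / ω T` from the complement of `U`, at which some polynomial relation of degree at most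
`ω T` (in each entry), with coefficients in the integers of `K` of size at most `T ^ ω T`, between the periods and the
powers of `2 π i` (`a`-th power, `a < ω T`) is not invariant under the group generated by `G` and the homotheties
(`z ^ w i` on `M i`, `z ^ 2` on `2 π i`), or between the periods and the `ξ a` is not invariant under `G`, lie on at most
`T ^ (1 / ω T)` hypersurfaces of degree at most `T ^ (1 / ω T)`; and there are at most
`T ^ (1 / ω T) * N ^ (|X| - 1)` of them, `N` being the number of elements of `K` of height at most `T`.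
(2) Families with classical monodromy (`Cls`: polarizations `P Q Pᵀ = (2 π i) ^ w J`, the Zariski closure of the monodromy
contains the product of the special orthogonal and symplectic groups of the forms `J i`) are such families, and the orbit
of `(P x, 2 π i)` under the group of (1) is the set of the `(Y, μ)`, `μ ≠ 0`, with `Y Q(x) Yᵀ = μ ^ w J` and
`det Y / μ ^ (n w / 2) = det P / (2 π i) ^ (n w / 2)`, which is an algebraic number.
(3) For all `k`-tuples of hypergeometric equations `θ ^ n f = z Q(θ) f` of Calabi-Yau type (order `n = 2 m + 1`,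
`Q = (x + 1/2) ∏ ((x + 1/2) ^ 2 - β ^ 2)`, or `n = 2 m`, `Q = ∏ (x ^ 2 - β ^ 2)`, rational `β`, no integral exponents at
infinity), with the matrices `Y(z) = (θ ^ i f_j)` of the Frobenius bases at `z = 0`, and all matrices `Ω` which transform
the form `J0` on the solutions into `(2 π i) ^ w J` with `J` rational, the matrices `(Y(x i) Ω i)ᵀ` are the periods of a
family with classical monodromy over the set of the `x` with `|x i| < 1`, `|1 - x i| < 1`. -/
theorem result :
    (∀ (X : Type) [Fintype X] [DecidableEq X] [Nonempty X] (ι : Type) [Fintype ι] [DecidableEq ι] (n : ι → ℕ)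
      (F : Fam X n), ∃ (ω : ℝ → ℕ) (T₀ : ℝ), Tendsto ω atTop atTop ∧ Monotone ω ∧ ∀ T, T₀ ≤ T → 0 < ω T ∧
        ∀ (K : Type) [Field K] [NumberField K], Module.finrank ℚ K ≤ ω T → ∀ (io : K →+* ℂ) (ξ : Fin (ω T) → ℂ),
          Y124.Cov ⌊T ^ ((ω T : ℝ)⁻¹)⌋₊ ⌊T ^ ((ω T : ℝ)⁻¹)⌋₊
            ((fun (e : X → K) j => io (e j)) '' F.Exceptional (ω T) K io ξ T) ∧
          (F.Exceptional (ω T) K io ξ T).Finite ∧
          ((F.Exceptional (ω T) K io ξ T).ncard : ℝ) ≤
            T ^ ((ω T : ℝ)⁻¹) * ({x : K | Y120.HtLe K T x}.ncard : ℝ) ^ (Fintype.card X - 1)) ∧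
    (∀ (X : Type) [Fintype X] (ι : Type) [Fintype ι] [DecidableEq ι] (n : ι → ℕ) (C : Cls X n), ∃ F : Fam X n,
      F.U = C.U ∧ F.P = C.P ∧ F.w = C.w ∧ ∀ x : X → Qbar, (fun j => (x j : ℂ)) ∈ C.U →
        (∀ i, ∃ a : Qbar, (C.P (fun j => (x j : ℂ)) i).det = (a : ℂ) * tpi ^ (n i * C.w i / 2)) ∧
        ∀ (Y : Tup n) (μ : ℂ),
          (∃ g ∈ F.G, ∃ z : ℂ, z ≠ 0 ∧ Y = tw F.w z (g * F.P fun j => (x j : ℂ)) ∧ μ = z ^ 2 * tpi) ↔
            μ ≠ 0 ∧ ∀ i, Y i * (C.Q i x).map (algebraMap Qbar ℂ) * (Y i).transpose =
                μ ^ C.w i • (C.J i).map (algebraMap ℚ ℂ) ∧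
              tpi ^ (n i * C.w i / 2) * (Y i).det =
                μ ^ (n i * C.w i / 2) * (C.P (fun j => (x j : ℂ)) i).det) ∧
    ∀ (k : ℕ) (e : Fin k → Eqn), (∀ i, (e i).Admissible) →
      ∀ (Ω : ∀ i, Matrix (Fin (e i).order) (Fin (e i).order) ℂ) (w : Fin k → ℕ),
      (∀ i, Even (w i) ↔ (e i).odd = true) → ∀ J : ∀ i, Matrix (Fin (e i).order) (Fin (e i).order) ℚ,
      (∀ i, (J i).det ≠ 0) →
      (∀ i, (Ω i).transpose * (e i).J0.map (algebraMap ℚ ℂ) * Ω i = tpi ^ w i • (J i).map (algebraMap ℚ ℂ)) →
      ∃ C : Cls (Fin k) fun i => (e i).order, C.U = {x | ∀ i, ‖x i‖ < 1 ∧ ‖1 - x i‖ < 1} ∧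
        (∀ x, C.P x = fun i => ((e i).Y (x i) * Ω i).transpose) ∧ C.w = w ∧ C.J = J ∧
        ∀ i x, C.Q i x = (e i).J0.map (algebraMap ℚ Qbar) - x i • (e i).J1.map (algebraMap ℚ Qbar) := by
  refine ⟨fun _ _ _ _ _ _ _ _ F => F.main, fun X _ ι _ _ n C => ?_, fun k e he Ω w hw J hJ hΩ => ?_⟩
  · exact ⟨C.fam, rfl, rfl, rfl, fun x hx => ⟨C.det_alg hx, fun Y μ => C.orb_iff hx Y μ⟩⟩
  · obtain ⟨C, h1, h2, h3, h4, h5⟩ := hyp_cls e he Ω w hw J hJ hΩ
    refine ⟨C, ?_, h2, h3, h4, h5⟩
    rw [h1]
    ext x
    exact forall_congr' fun i => Pool.Agent.Y119.HY.mem_Lens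

end Pool.Agent.Results.MP_57341d_ag.HomothetiesAndMonodromy
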