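import Pool.Agent.Run7.h225.HG.JC

/-!
# Periods of products of hypergeometric motives: for almost all fibres all relations of bounded degree between the periods
of several families at the same fibre come from the bilinear relations and the determinants

Let `α_1, …, α_n` be rational numbers which are not integers, `n ≥ 2`, `θ = z d/dz` and `Q(x) = ∏_j (x + α_j)`. We consider
the hypergeometric operators `θ^n - z Q(θ)`. The exponents at `z = 0` are `0, …, 0`, so the monodromy at `0` is maximally
unipotent, the exponents at infinity are the `α_j`, and the monodromy at `z = 1` is a pseudoreflection with the determinant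
`exp(2πi s)`, `s = ∑_j α_j`. The Frobenius method gives the basis `f_0, …, f_{n-1}` of solutions. The periods of the fibres
of the family of motives near `z = 0` are linear combinations of the numbers `(θ^i f_j)(z)` with constant coefficients.

Up to rational gauge transformations the equation depends only on the `α_j` modulo `ℤ`, so we may normalise them such that
`s = 0` if `s` is an integer, `Q(-x) = Q(x)` if the equation is self-dual and `n` is even, and `Q(-1-x) = -Q(x)` if it is
self-dual and `n` is odd. Then the monodromy at `1` is unipotent (`s = 0`) or a complex reflection (`s ∉ ℤ`), and the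
differential Galois group contains `Sp_n` (`Q(-x) = Q(x)`), `SO_n` (`Q(-1-x) = -Q(x)`) or `SL_n` (not self-dual). For each of
finitely many fibres `z_i = 1 / t_i` we take a finite list of such equations, such that the exponents at infinity of
different equations of the list are not the same modulo `ℤ`, nor those of the dual equation. (We exclude lists which contain
an equation of order `2` with a reflection of order two at `1` and a self-dual equation of order `3`: the symmetric square of
the first may be the second by Clausen's formula.) We prove that for almost all tuples `t` all relations of bounded degree,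
over any finite dimensional space of constants, between the periods of all these motives at the fibres `1 / t_i` and the
numbers `log t_i` follow from the bilinear relations of the self-dual equations and from the determinants, which are the
powers `(1 - z_i)^(-s)` of `1 - z_i` with one and the same choice of the logarithm of `1 - z_i` for the equations of one
fibre. So the differential Galois group of the product of the families is as large as possible (Goursat, Kolchin, Ribet), and
the specialisations of the functional relations generate the relations of bounded degree.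
-/

set_option autoImplicit false

open PowerSeries Pool.Agent.Y119.HZ Pool.Agent.Run7.h225.HG

namespace Pool.Agent.Results.MP_57341d_ag.HypergeometricJoint

/-- A hypergeometric equation `θ^n f = z ∏_j (θ + α_j) f`. -/
structure Eqn where
  n : ℕ
  α : Fin n → ℚ

/-- the dual equation (the exponents at infinity are `-α_j`) -/
def Eqn.dual (e : Eqn) : Eqn := ⟨e.n, fun j => -e.α j⟩

/-- the multiset of the fractional parts of the `α_j` -/
def Eqn.frac (e : Eqn) : Multiset ℚ := Multiset.map (fun j => Int.fract (e.α j)) Finset.univ.val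

/-- the polynomial `Q = ∏_j (x + α_j)` -/
noncomputable def Eqn.poly (e : Eqn) : Polynomial ℚ := ∏ j, (Polynomial.X + Polynomial.C (e.α j))

/-- `Q(-x) = Q(x)` -/
def Eqn.Symplectic (e : Eqn) : Prop := e.poly.comp (-Polynomial.X) = e.poly

/-- `Q(-1-x) = -Q(x)` -/
def Eqn.Orthogonal (e : Eqn) : Prop := e.poly.comp (-(Polynomial.X + 1)) = -e.poly

/-- The order is at least two, the exponents at infinity are not integers, their sum is `0` or not an integer, and either the
fractional parts of the `α_j` and of the `-α_j` are different multisets or `Q(-x) = Q(x)` or `Q(-1-x) = -Q(x)`. -/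
def Eqn.Admissible (e : Eqn) : Prop :=
  2 ≤ e.n ∧ (∀ j, ∀ a : ℤ, e.α j ≠ a) ∧ (∑ j, e.α j = 0 ∨ ∀ a : ℤ, ∑ j, e.α j ≠ a) ∧
  (e.frac ≠ e.dual.frac ∨ e.Symplectic ∨ e.Orthogonal)

/-- The equations of a list are admissible, the exponents at infinity of different equations of the list, and of one of
them and of the dual of another one, are different modulo `ℤ`, and the list does not contain both an equation of order two
such that `s = ∑_j α_j ≠ 0` and `2 s` is an integer and an equation of order three with `Q(-1-x) = -Q(x)`. -/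
def Good {r : ℕ} (e : Fin r → Eqn) : Prop :=
  (∀ j, (e j).Admissible) ∧ (∀ i j, i ≠ j → (e i).frac ≠ (e j).frac ∧ (e i).frac ≠ (e j).dual.frac) ∧
  ∀ i j, (e i).n = 2 → (∃ a : ℤ, 2 * ∑ l, (e i).α l = a) → ∑ l, (e i).α l ≠ 0 → (e j).n = 3 → ¬ (e j).Orthogonal

/-- the power series `k + ε` in the variable `ε` -/
noncomputable def shift (k : ℕ) : PowerSeries ℚ := C (k : ℚ) + X

/-- `a_k(ε) = ∏_{l < k} Q(l + ε) / (l + 1 + ε)^n`. The series `∑_k a_k(ε) z^(k + ε)` solves the equation
`(θ^n - z Q(θ)) f = ε^n z^ε`, hence its coefficients `f_j` at `ε^j` with `j < n` are solutions of the homogeneous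
equation. -/
noncomputable def Eqn.frob (e : Eqn) (k : ℕ) : PowerSeries ℚ :=
  ∏ l ∈ Finset.range k, (Polynomial.aeval (shift l) e.poly * ((shift (l + 1))⁻¹) ^ e.n)

/-- The matrix with the entries `(θ^i f_j)(1 / t)`, where `f_j(z)` is the coefficient of `ε^j` in the series
`∑_k a_k(ε) z^(k + ε)`, `z^ε = ∑_l (log z)^l ε^l / l!`. -/
noncomputable def Eqn.Y (e : Eqn) (t : ℕ) : Matrix (Fin e.n) (Fin e.n) ℂ :=
  Matrix.of fun i j => ∑ l ∈ Finset.range ((j : ℕ) + 1), ((Real.log (1 / t) ^ l / l.factorial : ℝ) : ℂ) *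
    ∑' k : ℕ, ((coeff ((j : ℕ) - l) (shift k ^ (i : ℕ) * e.frob k) : ℚ) : ℂ) * (1 / (t : ℂ)) ^ k

/-- The matrix of the alternating form: the entry `(i, j)` is `(-1)^i q_{i+j+1-n}` for `i + j + 1 ≥ n` and `0`
otherwise, where `q_l` are the coefficients of `Q`. -/
noncomputable def Eqn.J (e : Eqn) : Matrix (Fin e.n) (Fin e.n) ℂ :=
  Matrix.of fun i j => if e.n ≤ (i : ℕ) + j + 1 then (((-1) ^ (i : ℕ) * e.poly.coeff (i + j + 1 - e.n) : ℚ) : ℂ) else 0

/-- the polynomial `(Q(x) + Q(y)) / (x + y + 1)`, a polynomial in `y` with coefficients in `ℚ[x]` -/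
noncomputable def lagrange (Q : Polynomial ℚ) : Polynomial (Polynomial ℚ) :=
  (Polynomial.C Q + Q.map Polynomial.C) /ₘ (Polynomial.X + Polynomial.C (Polynomial.X + 1))

/-- The matrix of the symmetric form on the fibre at `z`: the entry `(i, j)` is the coefficient of `x^i y^j` in
`(x^n + y^n) / (x + y) - z (Q(x) + Q(y)) / (x + y + 1)`. -/
noncomputable def Eqn.B (e : Eqn) (z : ℂ) : Matrix (Fin e.n) (Fin e.n) ℂ :=
  Matrix.of fun i j => (if (i : ℕ) + j + 1 = e.n then (-1) ^ (i : ℕ) else 0) -
    z * ((((lagrange e.poly).coeff j).coeff i : ℚ) : ℂ)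

/-- The torsor of the equation at `z` for a logarithm `L` of `1 - z`: the matrices `X` with `det X = exp(-s L)`,
`s = ∑_j α_j`, and `Xᵀ J X = J` if `Q(-x) = Q(x)`, and `Xᵀ B(z) X = B(0)` if `Q(-1-x) = -Q(x)`. -/
def Eqn.T (e : Eqn) (L z : ℂ) : Set (Matrix (Fin e.n) (Fin e.n) ℂ) :=
  {X | X.det = Complex.exp (-((∑ j, e.α j : ℚ) : ℂ) * L) ∧ (e.Symplectic → X.transpose * e.J * X = e.J) ∧
    (e.Orthogonal → X.transpose * e.B z * X = e.B 0)}

/-- The torsor of a list of equations at the fibre `z`: the tuples of matrices `X_j` such that there is a logarithm `L` of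
`1 - z` with `X_j ∈ T_j(L, z)` for all `j`. -/
def Torsor {r : ℕ} (e : Fin r → Eqn) (z : ℂ) : Set (∀ j, Matrix (Fin (e j).n) (Fin (e j).n) ℂ) :=
  {X | ∃ L : ℂ, Complex.exp L = 1 - z ∧ ∀ j, X j ∈ (e j).T L z}

/-- the point with the coordinates `l_i` and the entries of the matrices `X_ij` -/
def point {k : ℕ} {r : Fin k → ℕ} {e : ∀ i, Fin (r i) → Eqn} (l : Fin k → ℂ)
    (X : ∀ i j, Matrix (Fin (e i j).n) (Fin (e i j).n) ℂ) :
    (Σ i : Fin k, Option (Σ j : Fin (r i), Fin (e i j).n × Fin (e i j).n)) → ℂ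
  | ⟨i, none⟩ => l i
  | ⟨i, some ⟨j, p⟩⟩ => X i j p.1 p.2

/-- There is a polynomial relation of degree `≤ δ` with coefficients in `V` between the numbers `log t_i` and the
entries of the matrices `Y_ij(1 / t_i) Ω_ij` which does not vanish identically on the set of the points with arbitrary
coordinates `l_i` and the matrices `X_ij Ω_ij` with `(X_ij)_j` in the torsor of the `i`-th list at `1 / t_i`. -/
def Exceptional (δ : ℕ) (V : Submodule ℚ ℂ) {k : ℕ} {r : Fin k → ℕ} (e : ∀ i, Fin (r i) → Eqn)
    (Ω : ∀ i j, Matrix (Fin (e i j).n) (Fin (e i j).n) ℂ) (t : Fin k → ℕ) : Prop :=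
  ∃ P : MvPolynomial (Σ i : Fin k, Option (Σ j : Fin (r i), Fin (e i j).n × Fin (e i j).n)) ℂ,
    P.totalDegree ≤ δ ∧ (∀ s, P.coeff s ∈ V) ∧
    MvPolynomial.aeval (point (fun i => ((Real.log (t i) : ℝ) : ℂ)) fun i j => (e i j).Y (t i) * Ω i j) P = 0 ∧
    ∃ (l : Fin k → ℂ) (X : ∀ i j, Matrix (Fin (e i j).n) (Fin (e i j).n) ℂ),
      (∀ i, X i ∈ Torsor (e i) (1 / (t i : ℂ))) ∧ MvPolynomial.aeval (point l fun i j => X i j * Ω i j) P ≠ 0

theorem frob_eq (e : Eqn) (k : ℕ) : e.frob k = Pool.Agent.Y119.HY.aq e.n e.poly k := rfl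

theorem J_eq (e : Eqn) : e.J = Pool.Agent.Y119.HY.cm (Pool.Agent.Y119.HY.Jm e.n e.poly) := by
  ext i j
  rw [Pool.Agent.Y119.HY.cm_apply]
  unfold Eqn.J Pool.Agent.Y119.HY.Jm
  rw [Matrix.of_apply, Matrix.of_apply]
  split_ifs
  · rfl
  · simp

theorem B_eq (e : Eqn) (z : ℂ) : e.B z = Run7.h893.HO.Bz (Pool.Agent.Y119.HY.cm (Run7.h893.HO.J0m e.n))
    (Pool.Agent.Y119.HY.cm (Run7.h893.HO.J1m e.n e.poly)) z := by
  ext i j
  unfold Eqn.B Run7.h893.HO.Bz
  rw [Matrix.of_apply, Matrix.sub_apply, Matrix.smul_apply, Pool.Agent.Y119.HY.cm_apply, Pool.Agent.Y119.HY.cm_apply,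
    smul_eq_mul]
  congr 1
  unfold Run7.h893.HO.J0m
  rw [Matrix.of_apply]
  split_ifs
  · push_cast
    rfl
  · rw [Rat.cast_zero]

theorem Y_eq (e : Eqn) (t : ℕ) : e.Y t = Yt e.n e.poly t := by
  ext i j
  unfold Eqn.Y Yt
  rw [Matrix.of_apply, Matrix.mul_apply]
  have hE : ∀ c : Fin e.n, Pool.Agent.Y119.HY.E (Pool.Agent.Y119.HY.cm (Pool.Agent.Y119.HY.Am e.n))
      (-((Real.log t : ℝ) : ℂ)) c j = ∑ l ∈ Finset.range e.n,
        if (j : ℕ) = c + l then ((Real.log (1 / t) ^ l / l.factorial : ℝ) : ℂ) else 0 := by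
    intro c
    unfold Pool.Agent.Y119.HY.E
    rw [Matrix.sum_apply]
    refine Finset.sum_congr rfl fun l _ => ?_
    rw [Matrix.smul_apply, ← Pool.Agent.Y119.HY.cm_pow, Pool.Agent.Y119.HY.cm_apply, Pool.Agent.Y119.HY.Am_pow, smul_eq_mul,
      one_div, Real.log_inv]
    split_ifs
    · push_cast
      ring
    · simp
  simp only [hE, Finset.mul_sum]
  rw [Finset.sum_comm]
  have hsub : Finset.range ((j : ℕ) + 1) ⊆ Finset.range e.n := by
    intro l hl
    rw [Finset.mem_range] at hl ⊢
    have := j.2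
    omega
  refine Finset.sum_subset_zero_on_sdiff hsub (fun l hl => ?_) fun l hl => ?_
  · rw [Finset.mem_sdiff, Finset.mem_range, Finset.mem_range] at hl
    refine Finset.sum_eq_zero fun c _ => ?_
    rw [if_neg (by omega), mul_zero]
  · rw [Finset.mem_range] at hl
    have hj := j.2
    rw [Finset.sum_eq_single (⟨(j : ℕ) - l, by omega⟩ : Fin e.n)]
    · rw [if_pos (by simp only; omega), mul_comm]
      congr 1
      unfold Pool.Agent.Y119.HY.Hf Pool.Agent.Y119.HY.ps
      rw [Matrix.of_apply]
      refine tsum_congr fun k => ?_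
      show _ = ((Pool.Agent.Y119.HY.hq e.n e.poly k i ((j : ℕ) - l) : ℚ) : ℂ) * (((1 / (t : ℝ) : ℝ)) : ℂ) ^ k
      unfold Pool.Agent.Y119.HY.hq
      rw [← frob_eq]
      have hs : Pool.Agent.Y119.HY.kx k = shift k := rfl
      rw [hs]
      push_cast
      rfl
    · intro c _ hc
      rw [if_neg, mul_zero]
      intro h
      apply hc
      apply Fin.ext
      simp only
      omega
    · intro h
      exact absurd (Finset.mem_univ _) h

theorem point_eq {k : ℕ} {r : Fin k → ℕ} {e : ∀ i, Fin (r i) → Eqn} (l : Fin k → ℂ)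
    (X : ∀ i j, Matrix (Fin (e i j).n) (Fin (e i j).n) ℂ) : point l X = pj (n := fun i j => (e i j).n) l X := by
  funext v
  obtain ⟨i, _ | ⟨j, p⟩⟩ := v
  · rfl
  · rfl

theorem types {r : ℕ} {e : Fin r → Eqn} (he : Good e) : ∃ W, JU (fun j => (e j).n) (fun j => (e j).poly) W :=
  JU_QA (n := fun j => (e j).n) (α := fun j => (e j).α) (fun j => (he.1 j).1) (fun j => (he.1 j).2.1)
    (fun j => (he.1 j).2.2.1) (fun j => (he.1 j).2.2.2) (fun i j hij => he.2.1 i j hij) he.2.2

theorem T_eq {e : Eqn} (he : e.Admissible) (L z : ℂ) : e.T L z = TU e.n e.poly L z := by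
  have h1 : e.poly.coeff (e.n - 1) = ∑ j, e.α j := QA_coeff (by have := he.1; omega) e.α
  have hQ := QG_QA he.1 (nonint he.2.1)
  have hB : e.B 0 = Pool.Agent.Y119.HY.cm (Run7.h893.HO.J0m e.n) := by
    rw [B_eq]
    unfold Run7.h893.HO.Bz
    rw [zero_smul, sub_zero]
  ext X
  unfold Eqn.T TU
  rw [h1, J_eq, hB, B_eq]
  refine and_congr_right fun _ => and_congr ⟨fun h h2 => h ?_, fun h h2 => h ?_⟩ ⟨fun h h2 => h h2.sym, fun h h2 => h ?_⟩
  · exact even_of_QD h2
  · exact QD_of_even hQ h2
  · exact QO_of_comp he.1 (nonint he.2.1) h2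

/-- Let `e_i`, `1 ≤ i ≤ k`, be good lists of hypergeometric equations `e_ij`. Then the tuples `(Y_ij(1 / t))_j` lie in the
torsor of the list `e_i` at `1 / t` for `t ≥ 2`, and for all `δ` and `D` there are `c > 0` and `C` such that for every
`ℚ`-space `V` of complex numbers of dimension `≤ D`, all complex matrices `Ω_ij` and every box `∏_i (x_i, x_i + N]` with
`x_i ≥ 1` the following holds for all but `C N^(k-1) ∑_i (1 + N / (x_i + N)^c)` integral points `t` of the box: every
polynomial relation of degree `≤ δ` with coefficients in `V` between the numbers `log t_i` and the entries of the matrices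
`Y_ij(1 / t_i) Ω_ij` vanishes identically on the set of the points with arbitrary coordinates in place of the `log t_i` and
the matrices `X_ij Ω_ij`, where `(X_ij)_j` is in the torsor of the list `e_i` at `1 / t_i` for all `i`. -/
theorem result (k : ℕ) (r : Fin k → ℕ) (e : ∀ i, Fin (r i) → Eqn) (he : ∀ i, Good (e i)) :
    (∀ i, ∀ t : ℕ, 2 ≤ t → (fun j => (e i j).Y t) ∈ Torsor (e i) (1 / (t : ℂ))) ∧
    ∀ δ D : ℕ, ∃ c C : ℝ, 0 < c ∧ ∀ V : Submodule ℚ ℂ, Module.Finite ℚ V → Module.finrank ℚ V ≤ D →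
      ∀ (Ω : ∀ i j, Matrix (Fin (e i j).n) (Fin (e i j).n) ℂ) (x : Fin k → ℕ) (N : ℕ), (∀ i, 1 ≤ x i) → 1 ≤ N →
      (({t : Fin k → ℕ | (∀ i, x i < t i ∧ t i ≤ x i + N) ∧ Exceptional δ V e Ω t}.ncard : ℕ) : ℝ) ≤
        C * (N : ℝ) ^ (k - 1) * ∑ i, (1 + N / ((x i : ℝ) + N) ^ c) := by
  classical
  have hW := fun i => types (he i)
  choose W hJ using hW
  have hcast : ∀ t : ℕ, (((1 / (t : ℝ) : ℝ)) : ℂ) = 1 / (t : ℂ) := fun t => by push_cast; rfl
  refine ⟨fun i t ht => ?_, fun δ D => ?_⟩
  · have ht0 : (2 : ℝ) ≤ t := by exact_mod_cast ht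
    have h0 : 0 < 1 / (t : ℝ) := by positivity
    have h1 : 1 / (t : ℝ) < 1 := by rw [div_lt_one (by linarith)]; linarith
    refine ⟨Complex.log (1 - (((1 / (t : ℝ) : ℝ)) : ℂ)), ?_, fun j => ?_⟩
    · rw [Complex.exp_log, hcast]
      intro h
      have : (1 - 1 / (t : ℝ) : ℝ) = 0 := by exact_mod_cast h
      linarith
    · show (e i j).Y t ∈ (e i j).T _ _
      rw [T_eq ((he i).1 j), Y_eq, Yt_eq (by omega), ← hcast]
      exact YU_mem ((hJ i).q j) h0 h1
  obtain ⟨c, C, hc, -, hmain⟩ := tuples_joint2 pieces k δ D r (fun i j => (e i j).n) (fun i j => (e i j).poly) W hJ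
  refine ⟨c, C, hc, ?_⟩
  intro V hVf hV Ω x N hx hN
  set S := {t : Fin k → ℕ | (∀ i, x i < t i ∧ t i ≤ x i + N) ∧ Exceptional δ V e Ω t} with hS
  have hfin : S.Finite := by
    refine (Set.finite_Iic (fun i : Fin k => x i + N)).subset ?_
    intro t ht i
    exact (ht.1 i).2
  rw [Set.ncard_eq_toFinset_card S hfin]
  refine hmain V hV Ω x N hx hN _ fun t ht => ?_
  have ht' : t ∈ S := hfin.mem_toFinset.1 ht
  obtain ⟨hbox, P, h1, h2, h3, l, g, hg, h4⟩ := ht'
  refine ⟨hbox, P, h1, h2, ?_, l, g, fun i => ?_, ?_⟩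
  · rw [point_eq] at h3
    simp only [Y_eq] at h3
    exact h3
  · obtain ⟨L, hL, hX⟩ := hg i
    refine ⟨L, ?_, fun j => ?_⟩
    · rw [hcast]
      exact hL
    · rw [← T_eq ((he i).1 j), hcast]
      exact hX j
  · rw [point_eq] at h4
    exact h4

end Pool.Agent.Results.MP_57341d_ag.HypergeometricJoint
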