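import Pool.Agent.Run7.h2.OB.Pl

set_option autoImplicit false

/-!
# The torsors of periods of motives of unitary type: signature `(1, n)` at one place, arbitrary
# signatures at the other places

Let `A` be an abelian variety over `ℚ̄` and let `M` be any André motive over `ℚ̄` in the tensor
category generated by `h^1(A)` and the Tate motives. Let `P` be the matrix of the periods
of `M`, and let `G ⊆ GL(H_B(M))` be *any* algebraic group over `ℚ` such that the comparison
isomorphism of `M` is a point of a torsor of `G` defined over `ℚ̄`: `P T ∈ G(ℂ)` for some matrix `T`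
with algebraic entries. By theorems of Deligne and André the motivic Galois group of `M` is its
Mumford-Tate group `MT(M)`, and `P` is a point of a torsor of `MT(M)`. The conjecture
`trdeg ℚ̄(P) = dim MT(M)` says that `P` is a generic point of this torsor; in particular it predicts
that every such `G` contains `MT(M)` (this prediction is equivalent to: all de Rham-Betti classes in
the tensor constructions of `M` are Hodge classes).

**The part of `A`** (`OneBallPart`). Let `z` be an element of the centre of `End(A) ⊗ ℚ` which is
skew-symmetric for the polarization, such that every element of the centre is a polynomial in `z` on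
the image of `z`, and such that these polynomials form a field `F` on the image of `z`. For example let
`A` be isogenous to `A₁ ^ k × A₂`, `A₁` simple, `Hom(A₁, A₂) = 0`, let the centre of `End(A₁) ⊗ ℚ` be a
CM field `F`, and `z ∈ F` a generator with `z̄ = - z`. Let `B` be the algebra of the endomorphisms of
the rational vector space `H_1(A, ℚ)` which commute with `End(A)`, cut down to the image of `z`: a
central simple algebra over `F`, of any degree `N`. Let `S` be a finite set of real numbers `a ≠ 0`,
`S` and `- S` disjoint, such that both `i a` and `- i a` are eigenvalues of `z` on the tangent space of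
`A`: so `S` is a set of places of `F` at which the unitary group of `B` is not compact, of a signature
`(r_a, s_a)` with `r_a, s_a ≥ 1`. We assume:

* for ONE element `a₀` of `S` the eigenspace of `i a₀` on the tangent space is a *simple* module over
  `End(A)`: so the signature at the place `a₀` is `(1, N - 1)`. **The signatures at all the other places
  of `S` are arbitrary.**
* *separation*: if `B₁ ⊆ B` is a `ℚ`-algebra with `B = B₁ F`, then the elements of `F` in `B₁`
  separate `± i a` and `± i b` for different `a`, `b` in `S`, and they separate `i a₀` and `- i a₀`.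

The separation says that `B` does not descend to a subfield `F₁` of `F` on which one of the embeddings
`i a`, `- i a` agrees with one of the embeddings `i b`, `- i b`, or on which `i a₀` agrees with `- i a₀`.
For example let `F` be of degree four without an imaginary quadratic subfield (so `F` is cyclic, or it is
not normal over `ℚ`). Then the separation is satisfied for all central simple algebras `B` whose order in
the Brauer group of `F` is larger than two: every proper subfield of `F` is contained in the real
quadratic subfield, and if `B` descends to it, then `B` is isomorphic to its opposite algebra by the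
involution. So here the theorem applies to all abelian varieties `A` such that `End(A)` contains `F` in
its centre, `B` has order `> 2` and the signatures are `(1, N - 1)` and `(r, s)`, with arbitrary
`r, s ≥ 1`, for example to the general abelian varieties of the Shimura varieties of the groups of type
`U(1, n) × U(r, s)`. Nothing is assumed about the other places of `F`, or about `A₂`.

**The domain of `M`** (`DomainOf`). We assume that the elements of `[𝔤, 𝔤] ⊗ ℝ` (`𝔤` is the Lie algebra
of the Hodge group of `A`) which act trivially on the eigenspaces for `± i a`, `a ∈ S`, act on `M` by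
matrices which commute with the complex structure `N` of `M`. If `S` is the set of all places at which
the unitary group is not compact, and `A = A₁ ^ k`, then this is true for all motives `M`. The
Mumford-Tate domain of `M` is then a product of hermitian symmetric domains of type `A_{r_a, s_a}`, one
for each element of `S` (or of some of them), for example of a ball and of a Grassmann domain.

**Theorem.** 1. `G` contains the derived group of `MT(M)`: for all elements `Z` of the derived algebra
of the Lie algebra of the Hodge group of `M`, and all complex numbers `t`, the matrix `exp (t Z)` is in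
`G`. 2. If the centre of the Lie algebra of the Hodge group acts trivially on `M` (for example for the
adjoint motive), then `G` contains `MT(M)`.

The group `G` is not assumed to be reductive. Known before: all signatures in `S` are `(1, n)`
(`ProductsOfBalls`), or `B` is a division algebra of prime degree (`DivisionAlgebrasOfPrimeDegree`,
`DivisionAlgebraPeriods`). In `ProductsOfBalls` the motives whose domain involves a place with another
signature are excluded by the condition on the domain. New is that one place of signature `(1, n)` is
sufficient.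

Nothing is assumed about periods: `AbVar` is the description of an abelian variety over `ℚ̄` by theta
functions (see `Pool/Agent/Y102/AVDefs.lean`, where it is explained why every abelian variety has it),
and the transcendence theorems which are used, the theorem of Schneider and Lang and the
transcendence of `π`, are proved in this repository.

## Motives

As `h^1(A)` is dual to `h^1(A)(1)`, the motive `M` is a direct factor of a sum of motives
`h^1(A) ^ {⊗ r i} (w i)`. Its Betti realization is a space of families of multilinear forms with
rational values, in `r i` variables in `H_1(A, ℚ)`, with a basis `B`. It is the image of a motivated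
projector, and the realizations of motivated classes are Hodge classes and de Rham-Betti classes; so
it is stable under the Lie algebra `𝔤` of the endomorphisms of `H_1(A, ℚ)` which annihilate all
classes that are Hodge classes and de Rham-Betti classes (`InLie`), and under the weights. The de Rham
realization has a basis which consists of combinations of products of elements of `H^1_dR(A / ℚ̄)`
with algebraic coefficients. The matrix `P` of the periods expresses it in terms of the basis
`(2 π i) ^ (w i) B` of the Betti realization (`IsMotive`). By the theorem of Deligne `𝔤` is the Lie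
algebra of the Hodge group of `A`, and its image in the endomorphisms of `M` is the Lie algebra of
the Hodge group of `M`.

## Proof

Let `L` be the Lie algebra of `G`, and let `𝔮` be the set of the `X` in `𝔤` whose action on `M` is in
`L` up to a multiple of the weight operator. By the theorem of Schneider and Lang `𝔮` acts semisimply on
`H_1(A, ℚ)`, with the same commutant as `𝔤` (`Pool.Agent.N208.AM.qM_full`).

1. At the place `a₀` the image of `[𝔮, 𝔮] ⊗ ℝ` is `su(1, n)`, by the theorem on irreducible subalgebras
   of `u(1, n)` (`Pool.Agent.N521.LCHBG`, project BT of helper208).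
2. *From one place to all places* (`Run7.h2.OB.big_of_one`). So every commutator of elements of `B` is, on
   the eigenspaces for `± i a₀`, an element of the space `F 𝔮 ⊗ ℝ`. The eigenspaces are the image of a real
   polynomial in `z`; taking the rational components of its coefficients, and dividing by the polynomial
   in `z` obtained in this way (`F` is a field), one sees that the commutator is in `F 𝔮`
   (`Run7.h2.OB.desc`). Now this is a statement over `ℚ`, and it implies at every other place `a` that
   the complex span of the image `𝔯` of `[𝔮, 𝔮] ⊗ ℝ` in `u(r_a, s_a)` is `sl(N)`; so `𝔯 = su(r_a, s_a)`.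
3. The separation excludes links between two places (`Pool.Agent.N441.BGSJ`), so `[𝔮, 𝔮] ⊗ ℝ` and
   `[𝔤, 𝔤] ⊗ ℝ` have the same image on the sum of the eigenspaces for `± i a`, `a ∈ S`. The theorem
   follows by a lemma on real Lie algebras of helper113 (`Pool.Agent.N113.BT.mem_of_sup`).
-/

open Module Matrix Pool.Agent.Y102 Pool.Agent.W516.DR Pool.Agent.H204R3.GP

noncomputable section

namespace Pool.Agent.Results.MP_57341d_ag.OneBallPlace

variable {g : ℕ} (A : AbVar g)

/-! ### The part of the abelian variety -/

/-- `P` is an endomorphism of `A` (up to isogeny), in terms of its action on `H_1(A, ℚ)`: it respects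
the de Rham structure. (By the theorem of Bost, which is proved in `Pool.Agent.Y102.AbVar.hodge_end`,
these are the elements of `End(A) ⊗ ℚ`.) -/
def IsEndo (P : Module.End ℚ A.H1) : Prop := IsDeRhamBettiEnd QBar A.dR P

/-- The endomorphism `X` of `H_1(A, ℚ)` commutes with the endomorphisms of `A`. -/
def Commutes (X : Module.End ℚ A.H1) : Prop := ∀ P, IsEndo A P → X * P = P * X

/-- `x` is an eigenvector of `z` for the eigenvalue `i a` (or zero); here `H_1(A, ℝ) = ℂ ^ g` is the
tangent space, and `A.ext z` is the real linear extension of `z`. -/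
def Eigen (z : Module.End ℚ A.H1) (a : ℝ) (x : Fin g → ℂ) : Prop :=
  A.ext z x = ((a : ℂ) * Complex.I) • x

/-- The restriction of the endomorphism `X` to the image of `z` is `q(z)`. -/
def IsPoly (z X : Module.End ℚ A.H1) (q : Polynomial ℚ) : Prop :=
  X * z = Polynomial.aeval z q * z

/-- The value `q(i a)` of the polynomial `q`. -/
def value (a : ℝ) (q : Polynomial ℚ) : ℂ := Polynomial.aeval ((a : ℂ) * Complex.I) q

/-- **The separation.** If the subalgebra `B₁` generates together with `z` the algebra of all
endomorphisms which commute with the endomorphisms of `A` (on the image of `z`), then `B₁` contains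
(on the image of `z`) a polynomial in `z` which separates the numbers `i a` and `i b`. -/
def Separates (z : Module.End ℚ A.H1) (a b : ℝ) : Prop :=
  ∀ B₁ : Subalgebra ℚ (Module.End ℚ A.H1), (∀ X ∈ B₁, Commutes A X) →
    (∀ X, Commutes A X → ∃ X' ∈ Algebra.adjoin ℚ ((B₁ : Set (Module.End ℚ A.H1)) ∪ {z}),
      X * z = X' * z) →
    ∃ q, ∃ X ∈ B₁, IsPoly A z X q ∧ value a q ≠ value b q

/-- `z` is an endomorphism in the centre of the algebra of the endomorphisms, it is skew-symmetric for the
polarization, and the elements of the centre are polynomials in `z` on the image of `z`. -/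
structure CentralPart (z : Module.End ℚ A.H1) : Prop where
  endo : IsEndo A z
  central : ∀ P, IsEndo A P → z * P = P * z
  skew : ∀ u v, A.om (z u) v + A.om u (z v) = 0
  generates : ∀ P, IsEndo A P → (∀ Q, IsEndo A Q → P * Q = Q * P) → ∃ q, IsPoly A z P q

/-- The numbers `i a`, `a ∈ S`, are different from zero and not conjugate to each other, and `i a` and
`- i a` are eigenvalues of `z` on the tangent space. -/
structure Indefinite (z : Module.End ℚ A.H1) (S : Finset ℝ) : Prop where
  disjoint : ∀ a ∈ S, a ≠ 0 ∧ -a ∉ S
  indefinite : ∀ a ∈ S, (∃ x, x ≠ 0 ∧ Eigen A z a x) ∧ ∃ x, x ≠ 0 ∧ Eigen A z (-a) x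

/-- `ℚ[z]` is a field on the image of `z`: a polynomial in `z` which is not zero on the image of `z` is
injective there. -/
def IsFieldPart (z : Module.End ℚ A.H1) : Prop :=
  ∀ q : Polynomial ℚ, (∀ v, Polynomial.aeval z q (z v) = 0 → z v = 0) ∨
    ∀ v, Polynomial.aeval z q (z v) = 0

/-- **A unitary part** with the signature `(1, n)` at the place `a₀`, and with arbitrary indefinite
signatures at the other places of the finite set `S`. -/
structure OneBallPart (z : Module.End ℚ A.H1) (S : Finset ℝ) (a₀ : ℝ) : Prop where
  /-- `z` is central and skew-symmetric and it generates the centre on its image -/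
  part : CentralPart A z
  /-- `ℚ[z]` is a field on the image of `z` -/
  field : IsFieldPart A z
  /-- the places -/
  places : Indefinite A z S
  mem : a₀ ∈ S
  /-- the eigenspace of `i a₀` on the tangent space is a simple module over the endomorphisms -/
  simple : ∀ x y, x ≠ 0 → Eigen A z a₀ x → Eigen A z a₀ y →
    y ∈ Submodule.span ℂ {w | ∃ P, IsEndo A P ∧ w = A.ext P x}
  /-- the separation of different places, and of `i a₀` and `- i a₀` -/
  separated : ∀ a b : ℝ, (a ∈ S ∨ -a ∈ S) → (b ∈ S ∨ -b ∈ S) → a ≠ b →
    (a ≠ -b ∨ a = a₀ ∨ a = -a₀) → Separates A z a b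

/-! ### The Lie algebra -/

/-- The multilinear forms in `2m` variables in the rational homology. -/
abbrev Form (m : ℕ) : Type := MultilinearMap ℚ (fun _ : Fin m × Fin 2 => A.H1) ℚ

/-- `φ` is a de Rham-Betti class in `H^1(A) ^ {⊗ 2m} (m)`. -/
def IsDRB {m : ℕ} (φ : Form A m) : Prop :=
  IsDeRhamBettiForm QBar A.dR (2 * Real.pi * Complex.I) m φ

/-- `φ` is a Hodge class in `H^1(A) ^ {⊗ 2m} (m)`. -/
def IsHodge {m : ℕ} (φ : Form A m) : Prop := IsHodgeTensor (A.per : A.H1 →+ (Fin g → ℂ)) φ

/-- The endomorphism `X` annihilates the form `φ` (as a derivation). -/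
def Annihilates {m : ℕ} (X : Module.End ℚ A.H1) (φ : Form A m) : Prop :=
  ∀ v, ∑ k, φ (Function.update v k (X (v k))) = 0

/-- `X` is in the Lie algebra `𝔤`: it annihilates all classes that are Hodge classes and
de Rham-Betti classes. -/
def InLie (X : Module.End ℚ A.H1) : Prop :=
  ∀ (m : ℕ) (φ : Form A m), IsHodge A φ → IsDRB A φ → Annihilates A X φ

/-! ### Motives -/

variable {s n : ℕ} (r : Fin s → ℕ) (w : Fin s → ℤ)

/-- The Betti realization of the sum of the motives `h^1(A) ^ {⊗ r i} (w i)`: families of multilinear
forms in `r i` variables in the rational homology. -/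
abbrev Tensors : Type := ∀ i : Fin s, MultilinearMap ℚ (fun _ : Fin (r i) => A.H1) ℚ

variable {A r}

/-- `M` is the matrix of the action of the endomorphism `X` of the rational homology of `A` (as a
derivation) on the space of tensors with the basis `B`. -/
def IsLieMatrix (B : Fin n → Tensors A r) (X : Module.End ℚ A.H1)
    (M : Matrix (Fin n) (Fin n) ℚ) : Prop :=
  ∀ a i v, ∑ k, B a i (Function.update v k (X (v k))) = ∑ b, M b a * B b i v

/-- The subspace with the basis `B` is the Betti realization of a direct factor `M` of the sum of the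
motives `h^1(A) ^ {⊗ r i} (w i)`, and `P` is the matrix of the periods of `M` for the basis `B` and for
some basis of the de Rham realization of `M` over `ℚ̄`. -/
structure IsMotive (B : Fin n → Tensors A r) (P : Matrix (Fin n) (Fin n) ℂ) : Prop where
  /-- `B` is a basis of a subspace -/
  basis : LinearIndependent ℚ B
  /-- the subspace is stable under `𝔤` -/
  lie : ∀ X, InLie A X → ∃ M : Matrix (Fin n) (Fin n) ℚ, IsLieMatrix B X M
  /-- the subspace is stable under the weights -/
  weight : ∃ M : Matrix (Fin n) (Fin n) ℚ, ∀ a i v,
    ((r i : ℚ) - 2 * w i) * B a i v = ∑ b, M b a * B b i v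
  /-- the de Rham realization has a basis of elements with algebraic coefficients in terms of the
  tensor products of the elements of the basis of `H^1_dR(A / ℚ̄)` -/
  deRham : ∃ c : Fin n → ∀ i : Fin s, (Fin (r i) → Fin g ⊕ Fin g) → ℂ,
    (∀ a i J, IsAlgebraic ℚ (c a i J)) ∧ ∀ a i (v : Fin (r i) → A.H1),
      ∑ J, c a i J * ∏ k, A.dR (J k) (v k) =
        (2 * Real.pi * Complex.I) ^ (w i) * ∑ b, P b a * (B b i v : ℂ)
  /-- the matrix of the periods is invertible -/
  det : P.det ≠ 0

/-! ### The Mumford-Tate domain -/

/-- `N` is the matrix of the action on `M` of the multiplication with `i` on `H_1(A, ℝ) = ℂ ^ g` (as a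
derivation): the generator of the Lie algebra of the circle in the Hodge structure of `M`. -/
def IsComplexStructure (B : Fin n → Tensors A r) (N : Matrix (Fin n) (Fin n) ℝ) : Prop :=
  ∀ a i (j : Fin (r i) → Fin (2 * g)),
    ∑ k, ∑ l : Fin (2 * g), A.lam.repr (Complex.I • A.lam (j k)) l *
        (B a i (Function.update (fun p => Pi.single (j p) 1) k (Pi.single l 1)) : ℝ) =
      ∑ b, N b a * (B b i (fun p => Pi.single (j p) 1) : ℝ)

variable (A) in
/-- The derived algebra `[𝔤, 𝔤]`. -/
def derivedLie : Submodule ℚ (Module.End ℚ A.H1) :=
  Submodule.span ℚ {Z | ∃ X, InLie A X ∧ ∃ Y, InLie A Y ∧ Z = X * Y - Y * X}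

/-- The part of the Hodge group which acts trivially on the eigenspaces of `z` for `± i a`, `a ∈ S`, acts
trivially on the Mumford-Tate domain of `M`: if an element of `[𝔤, 𝔤] ⊗ ℝ`, which acts on
`H_1(A, ℝ) = ℂ ^ g` by `p.1` and on `M` by `p.2`, acts trivially on these eigenspaces, then `p.2`
commutes with the complex structure `N` of `M`. -/
def DomainOf (z : Module.End ℚ A.H1) (S : Finset ℝ) (B : Fin n → Tensors A r)
    (N : Matrix (Fin n) (Fin n) ℝ) : Prop :=
  ∀ p ∈ Submodule.span ℝ {p : Module.End ℝ (Fin g → ℂ) × Matrix (Fin n) (Fin n) ℝ |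
      ∃ X ∈ derivedLie A, ∃ M : Matrix (Fin n) (Fin n) ℚ, IsLieMatrix B X M ∧
        p = (A.ext X, M.map fun q => (q : ℝ))},
    (∀ a ∈ S, ∀ x, Eigen A z a x ∨ Eigen A z (-a) x → p.1 x = 0) → p.2 * N = N * p.2

/-- The Lie algebra of the Hodge group of `M`: the smallest rational Lie algebra whose real span
contains the complex structure `N`. -/
def hodgeLie (N : Matrix (Fin n) (Fin n) ℝ) : Submodule ℚ (Matrix (Fin n) (Fin n) ℚ) :=
  sInf {L | (∀ x ∈ L, ∀ y ∈ L, x * y - y * x ∈ L) ∧
    N ∈ Submodule.span ℝ {M | ∃ x ∈ L, M = x.map fun q => (q : ℝ)}}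

/-- The derived algebra. -/
def derived (L : Submodule ℚ (Matrix (Fin n) (Fin n) ℚ)) :
    Submodule ℚ (Matrix (Fin n) (Fin n) ℚ) :=
  Submodule.span ℚ {z | ∃ x ∈ L, ∃ y ∈ L, z = x * y - y * x}

/-- The centre of the Lie algebra acts trivially: an element of `𝔤` which acts on `M` like a central
element acts trivially. -/
def CentreActsTrivially (B : Fin n → Tensors A r) : Prop :=
  ∀ X, InLie A X → (∀ Y, InLie A Y → IsLieMatrix B (X * Y - Y * X) 0) → IsLieMatrix B X 0

/-! ### Algebraic groups, torsors and the Mumford-Tate group -/

/-- A subgroup of `GL_R(ℂ)` defined by polynomials with rational coefficients. -/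
def IsAlgebraicSubgroup {R : Type} [Fintype R] [DecidableEq R] (G : Subgroup (GL R ℂ)) : Prop :=
  ∃ I : Set (MvPolynomial (R × R) ℚ), ∀ x : GL R ℂ, x ∈ G ↔
    ∀ p ∈ I, MvPolynomial.aeval (fun b : R × R => (x : Matrix R R ℂ) b.1 b.2) p = 0

/-- The torsor `G · T⁻¹` of `G`: the matrices `F` such that `F T` is an element of `G`. It is
defined over `ℚ̄` if `T` is a matrix with algebraic entries. -/
def torsor (G : Subgroup (GL (Fin n) ℂ)) (T : Matrix (Fin n) (Fin n) ℂ) :
    Set (Matrix (Fin n) (Fin n) ℂ) :=
  {F | ∃ x ∈ G, (x : Matrix (Fin n) (Fin n) ℂ) = F * T}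

variable (A) in
/-- The Hodge structure of `H^1(A)`: the complex number `z` acts on `H_1(A, ℝ) = ℂ ^ g` by
multiplication, and on `H^1(A, ℝ)` by the transposed map, here in the basis of `H^1(A, ℚ)` which is
dual to the basis of the lattice. -/
def hodge (z : ℂ) : Matrix (Fin (2 * g)) (Fin (2 * g)) ℂ :=
  Matrix.of fun i j => ((A.lam.repr (z • A.lam i) j : ℝ) : ℂ)

/-- `R` is the matrix of the action of the complex number `z` on `M`, in the Hodge structure given by
those of `H^1(A)` and of the Tate motives (`z` acts on `ℚ(1)` by `(z z̄)⁻¹`). -/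
def IsHodgeMatrix (B : Fin n → Tensors A r) (z : ℂ) (R : Matrix (Fin n) (Fin n) ℂ) : Prop :=
  ∀ a i (j : Fin (r i) → Fin (2 * g)),
    ∑ j' : Fin (r i) → Fin (2 * g), (∏ k, hodge A z (j k) (j' k)) *
        (B a i (fun k => Pi.single (j' k) 1) : ℂ) =
      (z * (starRingEnd ℂ) z) ^ (w i) * ∑ b, R b a * (B b i (fun k => Pi.single (j k) 1) : ℂ)

/-- The Mumford-Tate group of `M`: the smallest algebraic group over `ℚ` which contains the image of
the Deligne torus. -/
def mumfordTate (B : Fin n → Tensors A r) : Subgroup (GL (Fin n) ℂ) :=
  sInf {G | IsAlgebraicSubgroup G ∧ ∀ z : ℂ, z ≠ 0 → ∃ x ∈ G,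
    IsHodgeMatrix w B z (x : Matrix (Fin n) (Fin n) ℂ)}

variable (A) in
theorem comm_iff (X : Module.End ℚ A.H1) : Commutes A X ↔ X ∈ N208.BT.CB A :=
  ⟨fun h P hP => h P (A.mem_EA.1 hP), fun h P hP => h P (A.mem_EA.2 hP)⟩

variable (A) in
theorem OneBallPart.toHO {z : Module.End ℚ A.H1} {S : Finset ℝ} {a₀ : ℝ}
    (h : OneBallPart A z S a₀) : Run7.h2.OB.HO A z a₀ S where
  mem := A.mem_EA.2 h.part.endo
  cen := fun P hP => h.part.central P (A.mem_EA.1 hP)
  skew := h.part.skew
  gen := fun P hP hc => h.part.generates P (A.mem_EA.1 hP) fun Q hQ => hc Q (A.mem_EA.2 hQ)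
  fld := fun q hq v hv => by
    rcases h.field q with h1 | h1
    · exact h1 v hv
    · exact absurd (LinearMap.ext fun v => h1 v) hq
  al_mem := h.mem
  ne := fun a ha => (h.places.disjoint a ha).1
  e1 := fun a ha => (h.places.indefinite a ha).1
  e2 := fun a ha => (h.places.indefinite a ha).2
  disj := fun a ha => (h.places.disjoint a ha).2
  simple := fun x y hx h2 h3 => by
    refine (Submodule.span_mono ?_) (h.simple x y hx h2 h3)
    rintro w ⟨P, hP, rfl⟩
    exact ⟨P, A.mem_EA.2 hP, rfl⟩
  sep := fun B₁ h2 h3 a b ha hb hab hab' =>
    h.separated a b ha hb hab hab' B₁ (fun X hX => (comm_iff A X).2 (h2 X hX))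
      fun X hX => h3 X ((comm_iff A X).1 hX)

/-- **Theorem.** Let `z` be a central skew-symmetric endomorphism of the abelian variety `A` with a
unitary part, with the signature `(1, n)` at the place `a₀` and arbitrary indefinite signatures at the
other places of `S`, with separation. Let `M` be a motive in the tensor category generated by `h^1(A)` and the Tate
motives, with the matrix `P` of periods and the complex structure `N`, such that the part of the Hodge
group of `A` which acts trivially on the eigenspaces for `± i a`, `a ∈ S`, acts trivially on the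
Mumford-Tate domain of `M`. Let `G` be an algebraic group over `ℚ` with a torsor over `ℚ̄` which
contains `P`.

1. For all elements `Z` of the derived algebra of the Lie algebra of the Hodge group of `M` and all
   complex numbers `t` the matrix `exp (t Z)` is in `G`.
2. If the centre acts trivially on `M`, then the Mumford-Tate group of `M` is contained in `G`. -/
theorem result {g s n : ℕ} (A : AbVar g) (z : Module.End ℚ A.H1) (S : Finset ℝ) (a₀ : ℝ)
    (hA : OneBallPart A z S a₀) (r : Fin s → ℕ) (w : Fin s → ℤ)
    (B : Fin n → Tensors A r) (P : Matrix (Fin n) (Fin n) ℂ) (hM : IsMotive w B P)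
    (N : Matrix (Fin n) (Fin n) ℝ) (hN : IsComplexStructure B N) (hD : DomainOf z S B N)
    (G : Subgroup (GL (Fin n) ℂ)) (hG : IsAlgebraicSubgroup G) (T : Matrix (Fin n) (Fin n) ℂ)
    (hT : ∀ i j, IsAlgebraic ℚ (T i j)) (hP : P ∈ torsor G T) :
    (∀ Z ∈ derived (hodgeLie N), ∀ t : ℂ, ∃ x ∈ G,
      (x : Matrix (Fin n) (Fin n) ℂ) = NormedSpace.exp (t • Z.map fun q => (q : ℂ))) ∧
    (CentreActsTrivially B → mumfordTate w B ≤ G) := by
  obtain ⟨hM', Wt, hW⟩ : N208.AM.Mot w B P ∧ ∃ Wt, N208.AM.WRel w B Wt := by
    have hwt : ∃ M, N208.AM.WRel w B M := by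
      obtain ⟨M, h⟩ := hM.weight
      refine ⟨M, fun a i => MultilinearMap.ext fun v => ?_⟩
      rw [_root_.smul_apply, _root_.sum_apply, smul_eq_mul, h a i v]
      rfl
    refine ⟨⟨hM.basis, fun X hX => ?_, hwt, hM.det, hM.deRham⟩, hwt⟩
    obtain ⟨M, h⟩ := hM.lie X hX
    refine ⟨M, fun a i => MultilinearMap.ext fun v => ?_⟩
    rw [N208.AM.dact_apply, _root_.sum_apply, h a i v]
    rfl
  have hrelL : ∀ X M, N208.AM.Rel B X M ↔ IsLieMatrix B X M := by
    intro X M
    constructor
    · intro h a i v
      have h1 := congrArg (fun φ : MultilinearMap ℚ (fun _ : Fin (r i) => A.H1) ℚ => φ v) (h a i)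
      simp only [N208.AM.dact_apply, _root_.sum_apply, _root_.smul_apply, smul_eq_mul] at h1
      exact h1
    · intro h a i
      refine MultilinearMap.ext fun v => ?_
      rw [N208.AM.dact_apply, _root_.sum_apply, h a i v]
      rfl
  have hb : ∀ j : Fin (2 * g), A.bas j = Pi.single j 1 := fun j => by
    unfold AbVar.bas
    rw [Pi.basisFun_apply]
  have hrel : ∀ z R, N208.AM.HRel w B z R → IsHodgeMatrix w B z R := by
    intro z R h a i j
    have h1 := h a i j
    simp only [hb] at h1
    exact h1
  have hNC : CentreActsTrivially B → N208.AM.NoCentre B := fun hc X hX h =>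
    (hrelL X 0).2 (hc X hX fun Y hY => (hrelL _ 0).1 (h Y hY))
  -- the complex structure
  have hNR : N208.AM.RelR B AbVar.JJ N := by
    intro a i
    refine Basis.ext_multilinear (fun _ => A.lam) fun j => ?_
    have h1 := hN a i j
    rw [N208.AM.dact_apply, _root_.sum_apply]
    have h2 : (fun p => A.lam (j p)) = fun p => A.per (Pi.single (j p) 1) := by
      funext p
      rw [← hb, A.per_bas]
    have h3 : ∀ b, (N b a • A.Phi (B b i)) (fun p => A.lam (j p)) =
        N b a * (B b i (fun p => Pi.single (j p) 1) : ℝ) := fun b => by
      rw [_root_.smul_apply, smul_eq_mul, h2, A.Phi_per]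
    rw [Finset.sum_congr rfl fun b _ => h3 b, ← h1]
    refine Finset.sum_congr rfl fun k _ => ?_
    rw [AbVar.JJ_apply, ← A.lam.sum_repr (Complex.I • A.lam (j k)), MultilinearMap.map_update_sum]
    simp only [A.lam.sum_repr]
    refine Finset.sum_congr rfl fun l _ => ?_
    rw [MultilinearMap.map_update_smul, smul_eq_mul]
    congr 1
    have h4 : A.lam l = A.per (Pi.single l 1) := by rw [← hb, A.per_bas]
    rw [h2, h4, N208.AM.update_per, A.Phi_per]
  have hrig := N208.BT.rpartG (hA.toHO).hg
  have hα : N208.BT.DomU (N208.BT.US A z S) B N := by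
    intro p hp h0
    refine hD p ?_ fun a ha x hx => h0 x ⟨a, ha, ?_⟩
    · refine (Submodule.span_mono ?_) hp
      rintro _ ⟨X, hX, M, hM, rfl⟩
      refine ⟨X, ?_, M, (hrelL _ _).1 hM, rfl⟩
      refine (Submodule.span_mono ?_) hX
      rintro _ ⟨X, hX, Y, hY, rfl⟩
      exact ⟨X, hX, Y, hY, rfl⟩
    · have hz : z ∈ A.EA := A.mem_EA.2 hA.part.endo
      rcases hx with hx | hx
      · exact N208.BT.eig_mem_V0 hz rfl hx
      · exact N208.BT.eig_mem_V0 hz (by ring) hx
  -- the group
  have hdet : T.det ≠ 0 := by
    obtain ⟨x, -, hxT⟩ := hP
    intro h0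
    have h1 : (x : Matrix (Fin n) (Fin n) ℂ).det = 0 := by
      rw [hxT, Matrix.det_mul, h0, mul_zero]
    exact (Matrix.GeneralLinearGroup.det x).ne_zero h1
  obtain ⟨T', h1, h2⟩ := Pool.Agent.R917.alg_inv hT hdet
  obtain ⟨x, hx, hxT⟩ := hP
  have hH : N208.AM.PtM P _ := ⟨Pool.Agent.R917.algGrp_of hG, T, T', h1, h2, x, hx, hxT⟩
  refine ⟨fun Z hZ t => ?_, fun hA => ?_⟩
  · obtain ⟨L, hL1, hL2, hL3⟩ := N208.BT.main_derU hM' hW hH hrig hNR hα
    have h3 : hodgeLie N ≤ L := sInf_le ⟨hL1, hL2⟩
    have h4 : derived (hodgeLie N) ≤
        N208.AM.LQ {M | ∃ x ∈ G, (x : Matrix (Fin n) (Fin n) ℂ) = M} := by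
      unfold derived
      rw [Submodule.span_le]
      rintro _ ⟨x, hx, y, hy, rfl⟩
      exact hL3 x (h3 hx) y (h3 hy)
    exact Pool.Agent.R917.exp_mem hH.grp fun d => (h4 hZ d).smul t
  · have hc : N208.AM.NoCentre B := hNC hA
    refine sInf_le ⟨hG, fun z hz => ?_⟩
    obtain ⟨⟨x, hx, hx'⟩, h4⟩ := N208.BT.main_BU hM' hW hH hc hrig hNR hα hz
    refine ⟨x, hx, ?_⟩
    rw [hx']
    exact hrel _ _ h4

end Pool.Agent.Results.MP_57341d_ag.OneBallPlace
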